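import Pool.Agent.Y402.PL.Axis

/-!
# MP_e68cd8_co: the exact two-dimensional Plünnecke inequality for `B` in a coordinate axis

`σ` is the rectangular Schnirelmann density in `[0,N] × [0,M]`, exactly as in the frozen
statements, and `0 < k' < k`.  If `B ∋ (0,0)` is contained in a coordinate axis, then the
conjectured inequality `σ(A + k'B) ≥ σ(A)^(1-k'/k) σ(kB)^(k'/k)` holds for every `A ⊆ ℕ²`.
-/

set_option autoImplicit false

namespace Pool.Agent.Results.MP_e68cd8_co.ExactForAxisB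

open Pointwise

/-- The exact inequality for all `A` when `B` is contained in a coordinate axis. -/
theorem result :
    ∀ N M : ℕ, ∀ σ : Finset (ℕ × ℕ) → ℝ,
    (∀ C : Finset (ℕ × ℕ), σ C = ⨅ p : Fin (N + 1) × Fin (M + 1),
        (((C.filter (fun q => q.1 ≤ (p.1 : ℕ) ∧ q.2 ≤ (p.2 : ℕ))).card : ℝ) /
          ((((p.1 : ℕ) : ℝ) + 1) * (((p.2 : ℕ) : ℝ) + 1)))) →
    ∀ A B : Finset (ℕ × ℕ), ((0, 0) : ℕ × ℕ) ∈ B →
      ((∀ b ∈ B, b.2 = 0) ∨ (∀ b ∈ B, b.1 = 0)) →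
    ∀ k k' : ℕ, 0 < k' → k' < k →
      σ A ^ (1 - (k' : ℝ) / (k : ℝ)) * σ (k • B) ^ ((k' : ℝ) / (k : ℝ)) ≤ σ (A + k' • B) := by
  intro N M σ hσ A B hB hB0 k k' hk' hk
  have h : ∀ C : Finset (ℕ × ℕ), σ C = Pool.Agent.Y402.PL.sig N M C := fun C => by
    rw [hσ C]
    rfl
  rw [h A, h (k • B), h (A + k' • B)]
  exact Pool.Agent.Y402.PL.axis_both N M A B hB hB0 k k' hk' hk

end Pool.Agent.Results.MP_e68cd8_co.ExactForAxisB
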