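import Pool.Agent.Y402.PL.Final3

/-!
# MP_e68cd8_co: the exact two-dimensional Plünnecke inequality for staircase-dense sets

`σ` is the rectangular Schnirelmann density in `[0,N] × [0,M]`, exactly as in the frozen
statements, `(0,0) ∈ B` and `0 < k' < k`.  If `|A ∩ D| ≥ α |D|` for every down-closed
`D ⊆ [0,N] × [0,M]`, or if `A = A₁ × A₂` is a product and `α = σ(A)`, then
`σ(A + k'B) ≥ α^(1-k'/k) σ(kB)^(k'/k)`.
-/

set_option autoImplicit false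

namespace Pool.Agent.Results.MP_e68cd8_co.ExactForStaircaseDense

open Pointwise

/-- The exact inequality for sets `A` which are dense in all staircase regions, and for product
sets. -/
theorem result :
    ∀ N M : ℕ, ∀ σ : Finset (ℕ × ℕ) → ℝ,
    (∀ C : Finset (ℕ × ℕ), σ C = ⨅ p : Fin (N + 1) × Fin (M + 1),
        (((C.filter (fun q => q.1 ≤ (p.1 : ℕ) ∧ q.2 ≤ (p.2 : ℕ))).card : ℝ) /
          ((((p.1 : ℕ) : ℝ) + 1) * (((p.2 : ℕ) : ℝ) + 1)))) →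
    ∀ (A : Finset (ℕ × ℕ)) (α : ℝ), 0 ≤ α →
      ((∀ D : Finset (ℕ × ℕ), (∀ p ∈ D, p.1 ≤ N ∧ p.2 ≤ M) →
          (∀ p ∈ D, ∀ p' : ℕ × ℕ, p'.1 ≤ p.1 → p'.2 ≤ p.2 → p' ∈ D) →
          α * (D.card : ℝ) ≤ ((A ∩ D).card : ℝ)) ∨
        ((∃ A₁ A₂ : Finset ℕ, A = A₁ ×ˢ A₂) ∧ α = σ A)) →
    ∀ B : Finset (ℕ × ℕ), ((0, 0) : ℕ × ℕ) ∈ B →
    ∀ k k' : ℕ, 0 < k' → k' < k →
      α ^ (1 - (k' : ℝ) / (k : ℝ)) * σ (k • B) ^ ((k' : ℝ) / (k : ℝ)) ≤ σ (A + k' • B) := by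
  intro N M σ hσ A α hα hA B hB k k' hk' hk
  have h : ∀ C : Finset (ℕ × ℕ), σ C = Pool.Agent.Y402.PL.sig N M C := fun C => by
    rw [hσ C]
    rfl
  rcases hA with hA | ⟨⟨A₁, A₂, rfl⟩, rfl⟩
  · rw [h (k • B), h (A + k' • B)]
    apply Pool.Agent.Y402.PL.exact2 Pool.Agent.Y402.PL.hCH2 Pool.Agent.Y409.PL.mainSTC
      N M A B hB k k' hk' hk α hα
    intro D hD hdown
    exact hA D (fun p hp => Pool.Agent.Y402.PL.mem_box.mp (hD hp)) hdown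
  · rw [h (A₁ ×ˢ A₂), h (k • B), h (A₁ ×ˢ A₂ + k' • B)]
    exact Pool.Agent.Y402.PL.prod2 Pool.Agent.Y402.PL.hCH2 Pool.Agent.Y409.PL.mainSTC
      N M A₁ A₂ B hB k k' hk' hk

end Pool.Agent.Results.MP_e68cd8_co.ExactForStaircaseDense
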