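import Pool.Agent.Y402.PL.Final3

/-!
# MP_e68cd8_co: two-dimensional Plünnecke inequality up to an explicit constant

For all `N, M`, all finite `A, B ⊆ ℕ²` with `(0,0) ∈ B`, and all `0 < k' < k`, with `θ = k'/k`:

  `σ(A + k'B) ≥ c · σ(A)^(1-θ) · σ(kB)^θ`,

where `c` is the larger of `Γ(1+θ)` and
`c_L(θ) = (1/(L+1)) ∑_{j=1}^{L+1} (1/j + 1/(j+1) + ... + 1/(L+1))^θ`, `L = min(N, M)`
(`c_0 = 1`, `c_1(θ) = ((3/2)^θ + (1/2)^θ)/2`).  Here `σ` is the rectangular Schnirelmann density in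
`[0,N] × [0,M]`, exactly as in the frozen statements.
-/

set_option autoImplicit false

namespace Pool.Agent.Results.MP_e68cd8_co.PluenneckeUpToConstant

open Pointwise

/-- Two-dimensional Plünnecke inequality for Schnirelmann density, for all `0 < k' < k`, with the
constant `max (c_L(k'/k)) (Γ(1 + k'/k))`, `L = min(N, M)`. -/
theorem result :
    ∀ N M : ℕ, ∀ σ : Finset (ℕ × ℕ) → ℝ,
    (∀ C : Finset (ℕ × ℕ), σ C = ⨅ p : Fin (N + 1) × Fin (M + 1),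
        (((C.filter (fun q => q.1 ≤ (p.1 : ℕ) ∧ q.2 ≤ (p.2 : ℕ))).card : ℝ) /
          ((((p.1 : ℕ) : ℝ) + 1) * (((p.2 : ℕ) : ℝ) + 1)))) →
    ∀ A B : Finset (ℕ × ℕ), ((0, 0) : ℕ × ℕ) ∈ B →
    ∀ k k' : ℕ, 0 < k' → k' < k →
      max ((∑ j ∈ Finset.range (min N M + 1),
              (∑ i ∈ Finset.Ico j (min N M + 1), 1 / ((i : ℝ) + 1)) ^ ((k' : ℝ) / (k : ℝ)))
            / ((min N M + 1 : ℕ) : ℝ))
          (Real.Gamma (1 + (k' : ℝ) / (k : ℝ)))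
        * (σ A ^ (1 - (k' : ℝ) / (k : ℝ)) * σ (k • B) ^ ((k' : ℝ) / (k : ℝ)))
      ≤ σ (A + k' • B) := by
  intro N M σ hσ A B hB k k' hk' hk
  have h : ∀ C : Finset (ℕ × ℕ), σ C = Pool.Agent.Y402.PL.sig N M C := fun C => by
    rw [hσ C]
    rfl
  have hmain := Pool.Agent.Y402.PL.main2 Pool.Agent.Y402.PL.hCH2 Pool.Agent.Y409.PL.mainSTC
    Pool.Agent.Y402.PL.mainAREA N M A B hB k k' hk' hk
  unfold Pool.Agent.Y402.PL.cst Pool.Agent.Y402.PL.tailSum at hmain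
  rw [h A, h (k • B), h (A + k' • B)]
  exact hmain

end Pool.Agent.Results.MP_e68cd8_co.PluenneckeUpToConstant
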